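import Pool.Agent.R3M.Stmts

/-!
# R3M, row REV: the reversed configuration
-/

set_option autoImplicit false

namespace Pool.Agent.R3M.H60

open Pool.Agent.R3M

theorem half_congr {α : Type} [DecidableEq α] {M : Mat α} {P : Finset α} {a l b : ℕ}
    {g d f z h e f' z' : ℕ → α} (hl : 1 ≤ l) (hf : ∀ j, j < l → f' j = f j)
    (hz : ∀ j, j < l → z' j = z j) (H : Half M P a l b g d f z h e) :
    Half M P a l b g d f' z' h e where
  a1 := H.a1
  a2 := by
    intro j hj
    rw [hf j hj, hz j hj]
    exact H.a2 j hj
  a3 := H.a3
  c1 := H.c1
  c2 := by
    intro i j hi hj hjl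
    rw [hz j hjl]
    exact H.c2 i j hi hj hjl
  c3 := H.c3
  c4 := by
    intro i j hij hj
    rw [hz j hj, hf i (by omega)]
    exact H.c4 i j hij hj
  c5 := by
    intro i j hi hj
    rw [hf i (by omega)]
    exact H.c5 i j hi hj
  c6 := by
    rw [hz (l - 1) (by omega), hf (l - 1) (by omega)]
    exact H.c6
  c7 := H.c7

theorem rev : RevStmt := by
  intro α _ M N P S a l b g d f z h e C
  have hl := C.lpos
  exact
    { c1 := C.c2
      c2 := C.c1
      lpos := hl
      f0 := by
        change f (l - 0) = h 0
        rw [Nat.sub_zero]
        exact C.fl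
      fl := by
        change f (l - l) = g 0
        rw [Nat.sub_self]
        exact C.f0
      fP := fun j _ => C.fP (l - j) (Nat.sub_le _ _)
      zP := fun j hj => C.zP (l - 1 - j) (by omega)
      gh := fun i j hi hj => (C.gh j i hj hi).symm
      fg := fun i j hi h1 h2 => C.fh i (l - j) hi (by omega)
      fh := fun i j hi h1 => C.fg i (l - j) hi (by omega) (Nat.sub_le _ _)
      finj := by
        intro i j hi hj hh
        have := C.finj (l - i) (l - j) (Nat.sub_le _ _) (Nat.sub_le _ _) hh
        omega
      zinj := by
        intro i j hi hj hh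
        have := C.zinj (l - 1 - i) (l - 1 - j) (by omega) (by omega) hh
        omega
      de := fun i j hi hj => (C.de j i hj hi).symm
      zd := by
        intro i j hi hj hh
        have := C.ze i (l - 1 - j) hi (by omega) hh
        omega
      ze := by
        intro i j hi hj hh
        have := C.zd i (l - 1 - j) hi (by omega) hh
        omega
      hM := C.hN
      hN := by
        refine half_congr hl (fun j hj => ?_) (fun j hj => ?_) C.hM
        · change f (l - (l - j)) = f j
          congr 1
          omega
        · change z (l - 1 - (l - 1 - j)) = z j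
          congr 1
          omega }

end Pool.Agent.R3M.H60
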