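import Pool.Agent.R3M.Stmts

/-!
# R3M, row VSC: the size of the sets `VS`
-/

set_option autoImplicit false

namespace Pool.Agent.R3M.H60

open Pool.Agent.R3M

/-- the removed indices of the first cycle, without the one which is on the path -/
theorem red1 {a i : ℕ} {X RX : Finset ℕ} (m1 : Mo1 a i X RX) :
    ∃ R : Finset ℕ, R.card = X.card ∧ R ⊆ Finset.range a ∧
      (i = 0 → R = RX.erase 0 ∧ 0 ∈ RX) ∧ (i ≠ 0 → R = RX) := by
  rcases m1 with ⟨h0, t, ht, rfl, rfl⟩ | ⟨h0, ⟨rfl, rfl⟩ | ⟨rfl, rfl⟩⟩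
  · refine ⟨(Finset.range (t + 1)).erase 0, ?_, ?_, fun _ => ⟨rfl, by simp⟩, fun h => absurd h0 h⟩
    · rw [Finset.card_erase_of_mem (by simp)]
      simp
    · exact (Finset.erase_subset _ _).trans (Finset.range_mono ht)
  · exact ⟨∅, rfl, Finset.empty_subset _, fun h => by omega, fun _ => rfl⟩
  · exact ⟨Finset.range a, rfl, subset_rfl, fun h => by omega, fun _ => rfl⟩

theorem sub1 {a i : ℕ} {X RX : Finset ℕ} (m1 : Mo1 a i X RX) : X ⊆ Finset.range a ∧
    (i = 0 → a - 1 ∉ X) := by
  rcases m1 with ⟨h0, t, ht, rfl, rfl⟩ | ⟨h0, ⟨rfl, rfl⟩ | ⟨rfl, rfl⟩⟩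
  · refine ⟨Finset.range_mono ht.le, fun _ => ?_⟩
    rw [Finset.mem_range]
    omega
  · exact ⟨Finset.empty_subset _, fun h => by omega⟩
  · exact ⟨subset_rfl, fun h => by omega⟩

/-- the mode of the second cycle is the mode of the first one for the reversed path -/
theorem mo_rev {b l j : ℕ} {Y RY : Finset ℕ} (hj : j ≤ l) (m2 : Mo2 b l j Y RY) :
    Mo1 b (l - j) Y RY := by
  rcases m2 with ⟨h1, h2⟩ | ⟨h1, h2⟩
  · left
    exact ⟨by omega, h2⟩
  · right
    exact ⟨by omega, h2⟩

theorem vsc : VscStmt := by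
  intro α _ M N n P S a l b g d f z h e i j X RX Y RY hP C hij hjl m1 m2
  have ha : 2 ≤ a := C.c1.two
  have hb : 2 ≤ b := C.c2.two
  have hl := C.lpos
  have m2' := mo_rev hjl m2
  obtain ⟨R1, c1, s1, z1, n1⟩ := red1 m1
  obtain ⟨R2, c2, s2, z2, n2⟩ := red1 m2'
  obtain ⟨sX, tX⟩ := sub1 m1
  obtain ⟨sY, tY⟩ := sub1 m2'
  have hR1pos : i = 0 → ∀ x ∈ R1, 1 ≤ x := by
    intro h0 x hx
    rw [(z1 h0).1] at hx
    exact Nat.one_le_iff_ne_zero.2 (Finset.ne_of_mem_erase hx)
  have hR2pos : l - j = 0 → ∀ x ∈ R2, 1 ≤ x := by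
    intro h0 x hx
    rw [(z2 h0).1] at hx
    exact Nat.one_le_iff_ne_zero.2 (Finset.ne_of_mem_erase hx)
  -- the removed set
  have hR : RX.image g ∪ (Finset.Icc i j).image f ∪ RY.image h =
      R1.image g ∪ (Finset.Icc i j).image f ∪ R2.image h := by
    have e1 : RX.image g ∪ (Finset.Icc i j).image f =
        R1.image g ∪ (Finset.Icc i j).image f := by
      by_cases h0 : i = 0
      · obtain ⟨q1, q2⟩ := z1 h0
        rw [q1]
        conv_lhs => rw [← Finset.insert_erase q2]
        rw [Finset.image_insert, Finset.insert_union, Finset.insert_eq_self]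
        refine Finset.mem_union_right _ ?_
        rw [← C.f0]
        exact Finset.mem_image_of_mem f (Finset.mem_Icc.2 (by omega))
      · rw [n1 h0]
    rw [e1]
    by_cases h0 : l - j = 0
    · obtain ⟨q1, q2⟩ := z2 h0
      rw [q1]
      conv_lhs => rw [← Finset.insert_erase q2]
      rw [Finset.image_insert, Finset.union_insert, Finset.insert_eq_self]
      refine Finset.mem_union_left _ (Finset.mem_union_right _ ?_)
      rw [← C.fl]
      exact Finset.mem_image_of_mem f (Finset.mem_Icc.2 (by omega))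
    · rw [n2 h0]
  have hmem1 : ∀ x ∈ R1, x < a := fun x hx => Finset.mem_range.1 (s1 hx)
  have hmem2 : ∀ x ∈ R2, x < b := fun x hx => Finset.mem_range.1 (s2 hx)
  have hcR : (R1.image g ∪ (Finset.Icc i j).image f ∪ R2.image h).card =
      X.card + (j - i + 1) + Y.card := by
    rw [Finset.card_union_of_disjoint, Finset.card_union_of_disjoint, Finset.card_image_of_injOn,
      Finset.card_image_of_injOn, Finset.card_image_of_injOn, c1, c2, Nat.card_Icc]
    · omega
    · intro x hx y hy hxy
      exact C.c2.hinj x y (hmem2 x hx) (hmem2 y hy) hxy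
    · intro x hx y hy hxy
      have hx' := Finset.mem_Icc.1 hx
      have hy' := Finset.mem_Icc.1 hy
      exact C.finj x y (by omega) (by omega) hxy
    · intro x hx y hy hxy
      exact C.c1.hinj x y (hmem1 x hx) (hmem1 y hy) hxy
    · rw [Finset.disjoint_left]
      intro y hy hy'
      obtain ⟨x, hx, rfl⟩ := Finset.mem_image.1 hy
      obtain ⟨k, hk, hk'⟩ := Finset.mem_image.1 hy'
      have hk2 := Finset.mem_Icc.1 hk
      rcases Nat.eq_zero_or_pos k with rfl | hk0
      · rw [C.f0] at hk'
        have h3 := C.c1.hinj _ _ (by omega) (hmem1 x hx) hk'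
        have h4 := hR1pos (by omega) x hx
        omega
      · exact C.fg x k (hmem1 x hx).le hk0 (by omega) hk'
    · rw [Finset.disjoint_left]
      intro y hy hy'
      obtain ⟨x, hx, rfl⟩ := Finset.mem_image.1 hy'
      rcases Finset.mem_union.1 hy with hy | hy
      · obtain ⟨k, hk, hk'⟩ := Finset.mem_image.1 hy
        exact C.gh k x (hmem1 k hk).le (hmem2 x hx).le hk'
      · obtain ⟨k, hk, hk'⟩ := Finset.mem_image.1 hy
        have hk2 := Finset.mem_Icc.1 hk
        rcases Nat.lt_or_ge k l with h3 | h3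
        · exact C.fh x k (hmem2 x hx).le h3 hk'
        · have h4 : k = l := by omega
          rw [h4, C.fl] at hk'
          have h5 := C.c2.hinj _ _ (by omega) (hmem2 x hx) hk'
          have h6 := hR2pos (by omega) x hx
          omega
  have hsub : R1.image g ∪ (Finset.Icc i j).image f ∪ R2.image h ⊆ P := by
    intro y hy
    rcases Finset.mem_union.1 hy with hy | hy
    · rcases Finset.mem_union.1 hy with hy | hy
      · obtain ⟨x, hx, rfl⟩ := Finset.mem_image.1 hy
        exact C.c1.hP x (hmem1 x hx)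
      · obtain ⟨x, hx, rfl⟩ := Finset.mem_image.1 hy
        exact C.fP x (by
          have := Finset.mem_Icc.1 hx
          omega)
    · obtain ⟨x, hx, rfl⟩ := Finset.mem_image.1 hy
      exact C.c2.hP x (hmem2 x hx)
  -- the added set
  have hmX : ∀ x ∈ X, x < a := fun x hx => Finset.mem_range.1 (sX hx)
  have hmY : ∀ x ∈ Y, x < b := fun x hx => Finset.mem_range.1 (sY hx)
  have hcA : (X.image d ∪ (Finset.Ico i j).image z ∪ Y.image e).card =
      X.card + (j - i) + Y.card := by
    rw [Finset.card_union_of_disjoint, Finset.card_union_of_disjoint, Finset.card_image_of_injOn,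
      Finset.card_image_of_injOn, Finset.card_image_of_injOn, Nat.card_Ico]
    · intro x hx y hy hxy
      exact C.c2.einj x y (hmY x hx) (hmY y hy) hxy
    · intro x hx y hy hxy
      have hx' := Finset.mem_Ico.1 hx
      have hy' := Finset.mem_Ico.1 hy
      exact C.zinj x y (by omega) (by omega) hxy
    · intro x hx y hy hxy
      exact C.c1.einj x y (hmX x hx) (hmX y hy) hxy
    · rw [Finset.disjoint_left]
      intro y hy hy'
      obtain ⟨x, hx, rfl⟩ := Finset.mem_image.1 hy
      obtain ⟨k, hk, hk'⟩ := Finset.mem_image.1 hy'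
      have hk2 := Finset.mem_Ico.1 hk
      obtain ⟨h3, h4⟩ := C.zd x k (hmX x hx) (by omega) hk'
      rw [h4] at hx
      exact tX (by omega) hx
    · rw [Finset.disjoint_left]
      intro y hy hy'
      obtain ⟨x, hx, rfl⟩ := Finset.mem_image.1 hy'
      rcases Finset.mem_union.1 hy with hy | hy
      · obtain ⟨k, hk, hk'⟩ := Finset.mem_image.1 hy
        exact C.de k x (hmX k hk) (hmY x hx) hk'
      · obtain ⟨k, hk, hk'⟩ := Finset.mem_image.1 hy
        have hk2 := Finset.mem_Ico.1 hk
        obtain ⟨h3, h4⟩ := C.ze x k (hmY x hx) (by omega) hk'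
        rw [h4] at hx
        exact tY (by omega) hx
  have hdis : Disjoint P (X.image d ∪ (Finset.Ico i j).image z ∪ Y.image e) := by
    rw [Finset.disjoint_left]
    intro y hyP hy
    rcases Finset.mem_union.1 hy with hy | hy
    · rcases Finset.mem_union.1 hy with hy | hy
      · obtain ⟨x, hx, rfl⟩ := Finset.mem_image.1 hy
        exact C.c1.eP x (hmX x hx) hyP
      · obtain ⟨x, hx, rfl⟩ := Finset.mem_image.1 hy
        have := Finset.mem_Ico.1 hx
        exact C.zP x (by omega) hyP
    · obtain ⟨x, hx, rfl⟩ := Finset.mem_image.1 hy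
      exact C.c2.eP x (hmY x hx) hyP
  unfold VS
  rw [hR, Finset.card_union_of_disjoint (hdis.mono_left Finset.sdiff_subset),
    Finset.card_sdiff_of_subset hsub, hcR, hcA, hP.2.2]
  have hle := Finset.card_le_card hsub
  rw [hcR, hP.2.2] at hle
  omega

end Pool.Agent.R3M.H60
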