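import Pool.Agent.R3M.Stmts

/-!
# R3M, rows VSA, VSB: independence of the sets `VS`
-/

set_option autoImplicit false

namespace Pool.Agent.R3M.H60

open Pool.Agent.R3M

theorem vsa (mtr : MtrStmt) : VsaStmt := by
  intro α _ M N n P S a l b g d f z h e i j X RX Y RY hS hP C hij hjl m1 m2
  have ha : 2 ≤ a := C.c1.two
  have hb : 2 ≤ b := C.c2.two
  have hg : ∀ i, i ≤ a → g i ∈ P := by
    intro i hi
    rcases Nat.lt_or_eq_of_le hi with h1 | rfl
    · exact C.c1.hP i h1
    · rw [C.c1.wrap]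
      exact C.c1.hP 0 (by omega)
  have hgi : ∀ i j, i < a → j < a → g (i + 1) = g (j + 1) → i = j := by
    intro i j hi hj hh
    rcases Nat.lt_or_eq_of_le (Nat.succ_le_of_lt hi) with h1 | h1
    · rcases Nat.lt_or_eq_of_le (Nat.succ_le_of_lt hj) with h2 | h2
      · have := C.c1.hinj _ _ h1 h2 hh
        omega
      · rw [show j + 1 = a from h2, C.c1.wrap] at hh
        have := C.c1.hinj _ _ h1 (by omega) hh
        omega
    · rcases Nat.lt_or_eq_of_le (Nat.succ_le_of_lt hj) with h2 | h2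
      · rw [show i + 1 = a from h1, C.c1.wrap] at hh
        have := C.c1.hinj _ _ (by omega) h2 hh
        omega
      · omega
  have hX : X ⊆ Finset.range a := by
    rcases m1 with ⟨_, t, ht, rfl, _⟩ | ⟨_, ⟨rfl, _⟩ | ⟨rfl, _⟩⟩
    · exact Finset.range_mono ht.le
    · exact Finset.empty_subset _
    · exact subset_rfl
  have hY : Y ⊆ Finset.range b := by
    rcases m2 with ⟨_, t, ht, rfl, _⟩ | ⟨_, ⟨rfl, _⟩ | ⟨rfl, _⟩⟩
    · exact Finset.range_mono ht.le
    · exact Finset.empty_subset _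
    · exact subset_rfl
  have key := mtr α M P a l b g d f z h e i j X Y (by rw [hP.2.2]; exact hS.rM) hP.1
    (by omega) C.lpos (by omega) C.hM hg C.fP C.c2.hP C.c1.eP C.zP C.c2.eP hgi C.c1.wrap C.f0
    C.c1.einj (fun i j hi hj => C.finj i j hi.le hj.le) C.zinj C.c2.hinj C.c2.einj
    (fun i j h1 h2 h3 => C.fg i j h1 h2 h3.le) (fun i j h1 h2 => C.fh i j h1.le h2)
    (fun i j h1 h2 => C.gh i j h1 h2.le) C.de C.zd C.ze hij hjl hX hY ?_ ?_
  · refine M.sub key ?_
    unfold VS
    refine Finset.union_subset_union (Finset.sdiff_subset_sdiff subset_rfl ?_) subset_rfl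
    refine Finset.union_subset_union (Finset.union_subset_union ?_ ?_) ?_
    · intro y hy
      obtain ⟨x, hx, rfl⟩ := Finset.mem_image.1 hy
      rcases m1 with ⟨_, t, ht, rfl, rfl⟩ | ⟨_, ⟨rfl, rfl⟩ | ⟨rfl, rfl⟩⟩
      · exact Finset.mem_image_of_mem g (Finset.mem_range.2
          (Nat.succ_lt_succ (Finset.mem_range.1 hx)))
      · exact absurd hx (Finset.notMem_empty x)
      · rw [Finset.mem_range] at hx
        rcases Nat.lt_or_eq_of_le (Nat.succ_le_of_lt hx) with h1 | h1
        · exact Finset.mem_image_of_mem g (Finset.mem_range.2 h1)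
        · change g (x + 1) ∈ _
          rw [show x + 1 = a from h1, C.c1.wrap]
          exact Finset.mem_image_of_mem g (Finset.mem_range.2 (by omega))
    · exact Finset.image_subset_image Finset.Ico_subset_Icc_self
    · refine Finset.image_subset_image ?_
      rcases m2 with ⟨_, t, ht, rfl, rfl⟩ | ⟨_, ⟨rfl, rfl⟩ | ⟨rfl, rfl⟩⟩
      · exact Finset.range_mono (Nat.le_succ t)
      · exact subset_rfl
      · exact subset_rfl
  · intro h0 _
    rcases m1 with ⟨_, t, ht, rfl, _⟩ | ⟨h1, _⟩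
    · rw [Finset.mem_range]
      omega
    · omega
  · intro h0 h1
    rcases m2 with ⟨_, t, ht, rfl, _⟩ | ⟨h1, _⟩
    · rw [Finset.mem_range]
      omega
    · omega

theorem vs_rev {α : Type} [DecidableEq α] (P : Finset α) (g d f z h e : ℕ → α) (l i j : ℕ)
    (X RX Y RY : Finset ℕ) (hij : i ≤ j) (hjl : j ≤ l) :
    VS P h e (fun k => f (l - k)) (fun k => z (l - 1 - k)) g d (l - j) (l - i) Y RY X RX =
      VS P g d f z h e i j X RX Y RY := by
  have h1 : (Finset.Icc (l - j) (l - i)).image (fun k => f (l - k)) = (Finset.Icc i j).image f := by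
    ext y
    simp only [Finset.mem_image, Finset.mem_Icc]
    constructor
    · rintro ⟨k, hk, rfl⟩
      exact ⟨l - k, by omega, rfl⟩
    · rintro ⟨k, hk, rfl⟩
      refine ⟨l - k, by omega, ?_⟩
      congr 1
      omega
  have h2 : (Finset.Ico (l - j) (l - i)).image (fun k => z (l - 1 - k)) =
      (Finset.Ico i j).image z := by
    ext y
    simp only [Finset.mem_image, Finset.mem_Ico]
    constructor
    · rintro ⟨k, hk, rfl⟩
      exact ⟨l - 1 - k, by omega, rfl⟩
    · rintro ⟨k, hk, rfl⟩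
      refine ⟨l - 1 - k, by omega, ?_⟩
      congr 1
      omega
  unfold VS
  rw [h1, h2]
  ext y
  simp only [Finset.mem_union, Finset.mem_sdiff]
  tauto

theorem vsb (rev : RevStmt) (vsa : VsaStmt) : VsbStmt := by
  intro α _ M N n P S a l b g d f z h e i j X RX Y RY hS hP C hij hjl m1 m2
  have key := vsa α N M n P S b l a h e (fun k => f (l - k)) (fun k => z (l - 1 - k)) g d
    (l - j) (l - i) Y RY X RX ⟨hS.rN, hS.rM, hS.cS.2.1, hS.cS.1, hS.cS.2.2⟩
    ⟨hP.2.1, hP.1, hP.2.2⟩ (rev α M N P S a l b g d f z h e C) (by omega) (by omega) ?_ ?_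
  · rwa [vs_rev P g d f z h e l i j X RX Y RY hij hjl] at key
  · rcases m2 with ⟨h1, h2⟩ | ⟨h1, h2⟩
    · left
      exact ⟨by omega, h2⟩
    · right
      exact ⟨by omega, h2⟩
  · rcases m1 with ⟨h1, h2⟩ | ⟨h1, h2⟩
    · left
      exact ⟨by omega, h2⟩
    · right
      exact ⟨by omega, h2⟩

theorem vst (vsa : VsaStmt) (vsb : VsbStmt) (vsc : VscStmt) : VstStmt := by
  intro α _ M N n P S a l b g d f z h e i j X RX Y RY hS hP C hij hjl m1 m2
  exact ⟨vsa α M N n P S a l b g d f z h e i j X RX Y RY hS hP C hij hjl m1 m2,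
    vsb α M N n P S a l b g d f z h e i j X RX Y RY hS hP C hij hjl m1 m2,
    vsc α M N n P S a l b g d f z h e i j X RX Y RY hP C hij hjl m1 m2⟩

end Pool.Agent.R3M.H60
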